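import Pool.Agent.W607.Defs

/-!
# The length of infinitesimal neighbourhoods of a point with two cotangent directions
-/

set_option autoImplicit false

namespace Pool.Agent.TH522.NX

open MvPolynomial Pool.Agent.W607

variable {σ : Type} {K : Type} [Field K]

theorem sub_C_mem (w : σ → K) (f : MvPolynomial σ K) : f - C (eval w f) ∈ mw w := by
  classical
  induction f using MvPolynomial.induction_on with
  | C a => simp
  | add p q hp hq =>
    have : p + q - C (eval w (p + q)) = (p - C (eval w p)) + (q - C (eval w q)) := by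
      rw [map_add, map_add]; ring
    rw [this]
    exact Ideal.add_mem _ hp hq
  | mul_X p i hp =>
    have : p * X i - C (eval w (p * X i)) =
        (p - C (eval w p)) * X i + C (eval w p) * (X i - C (w i)) := by
      rw [map_mul, map_mul, eval_X]; ring
    rw [this]
    exact Ideal.add_mem _ (Ideal.mul_mem_right _ _ hp)
      (Ideal.mul_mem_left _ _ (Ideal.subset_span ⟨i, rfl⟩))

theorem eval_of_mem {w : σ → K} {f : MvPolynomial σ K} (h : f ∈ mw w) : eval w f = 0 := by
  have : mw w ≤ RingHom.ker (eval w) := by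
    unfold mw
    rw [Ideal.span_le]
    rintro _ ⟨i, rfl⟩
    simp [RingHom.mem_ker]
  exact this h

theorem mem_mw_iff {w : σ → K} {f : MvPolynomial σ K} : f ∈ mw w ↔ eval w f = 0 := by
  refine ⟨eval_of_mem, fun h => ?_⟩
  have := sub_C_mem w f
  rwa [h, map_zero, sub_zero] at this

variable [Fintype σ]

/-- Taylor expansion of order one -/
theorem taylor (w : σ → K) (f : MvPolynomial σ K) :
    f - (C (eval w f) + ∑ j, C (eval w (pderiv j f)) * (X j - C (w j))) ∈ (mw w) ^ 2 := by
  classical
  induction f using MvPolynomial.induction_on with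
  | C a => simp
  | add p q hp hq =>
    have : p + q - (C (eval w (p + q)) + ∑ j, C (eval w (pderiv j (p + q))) * (X j - C (w j))) =
        (p - (C (eval w p) + ∑ j, C (eval w (pderiv j p)) * (X j - C (w j)))) +
        (q - (C (eval w q) + ∑ j, C (eval w (pderiv j q)) * (X j - C (w j)))) := by
      simp only [map_add, add_mul, Finset.sum_add_distrib]
      ring
    rw [this]
    exact Ideal.add_mem _ hp hq
  | mul_X p i hp =>
    have h1 : ∑ j, C (eval w (pderiv j (p * X i))) * (X j - C (w j)) =
        (∑ j, C (eval w (pderiv j p)) * (X j - C (w j))) * C (w i) +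
          C (eval w p) * (X i - C (w i)) := by
      have h2 : ∀ j, C (eval w (pderiv j (p * X i))) * (X j - C (w j)) =
          C (eval w (pderiv j p)) * (X j - C (w j)) * C (w i) +
            (if j = i then C (eval w p) * (X j - C (w j)) else 0) := by
        intro j
        rw [Derivation.leibniz, pderiv_X]
        simp only [smul_eq_mul, map_add, map_mul, eval_X, Pi.single_apply]
        by_cases h : i = j
        · rw [if_pos h, if_pos h.symm, map_one, map_one]; ring
        · rw [if_neg h, if_neg (Ne.symm h), map_zero, map_zero]; ring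
      simp only [h2, Finset.sum_add_distrib, Finset.sum_ite_eq', Finset.mem_univ, if_true,
        Finset.sum_mul]
    have : p * X i - (C (eval w (p * X i)) +
        ∑ j, C (eval w (pderiv j (p * X i))) * (X j - C (w j))) =
        (p - (C (eval w p) + ∑ j, C (eval w (pderiv j p)) * (X j - C (w j)))) * X i +
        (∑ j, C (eval w (pderiv j p)) * (X j - C (w j))) * (X i - C (w i)) := by
      rw [h1, map_mul, map_mul, eval_X]
      ring
    rw [this]
    refine Ideal.add_mem _ (Ideal.mul_mem_right _ _ hp) ?_
    rw [sq]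
    refine Ideal.mul_mem_mul (Ideal.sum_mem _ fun j _ => Ideal.mul_mem_left _ _
      (Ideal.subset_span ⟨j, rfl⟩)) (Ideal.subset_span ⟨i, rfl⟩)

omit [Fintype σ] in
/-- the derivatives of an element of the square of the ideal of the point vanish at the point -/
theorem pderiv_of_mem_sq {w : σ → K} {f : MvPolynomial σ K} (h : f ∈ (mw w) ^ 2) (j : σ) :
    eval w (pderiv j f) = 0 := by
  rw [sq] at h
  refine Submodule.mul_induction_on h ?_ ?_
  · intro a ha b hb
    rw [Derivation.leibniz]
    simp only [smul_eq_mul, map_add, map_mul, eval_of_mem ha, eval_of_mem hb, zero_mul, add_zero]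
  · intro a b ha hb
    rw [map_add, map_add, ha, hb, add_zero]

section cot
omit [Fintype σ]
variable (J : Ideal (MvPolynomial σ K)) (w : σ → K) (a b : MvPolynomial σ K)

/-- the span of `a` and `b` is the cotangent space -/
def Cot : Prop := ∀ i, ∃ c1 c2 : K, ∃ j ∈ J, ∃ r ∈ (mw w) ^ 2,
  X i - C (w i) = C c1 * a + C c2 * b + j + r

variable {J w a b}

theorem Cot.all (h : Cot J w a b) {g : MvPolynomial σ K} (hg : g ∈ mw w) :
    ∃ c1 c2 : K, ∃ j ∈ J, ∃ r ∈ (mw w) ^ 2, g = C c1 * a + C c2 * b + j + r := by
  unfold mw at hg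
  induction hg using Submodule.span_induction with
  | mem x hx =>
    obtain ⟨i, rfl⟩ := hx
    exact h i
  | zero => exact ⟨0, 0, 0, Ideal.zero_mem _, 0, Ideal.zero_mem _, by simp⟩
  | add x y _ _ hx hy =>
    obtain ⟨c1, c2, j, hj, r, hr, e⟩ := hx
    obtain ⟨c1', c2', j', hj', r', hr', e'⟩ := hy
    refine ⟨c1 + c1', c2 + c2', j + j', Ideal.add_mem _ hj hj', r + r', Ideal.add_mem _ hr hr', ?_⟩
    rw [e, e', map_add, map_add]
    ring
  | smul q x hx' hx =>
    obtain ⟨c1, c2, j, hj, r, hr, e⟩ := hx
    refine ⟨eval w q * c1, eval w q * c2, C (eval w q) * j, Ideal.mul_mem_left _ _ hj,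
      C (eval w q) * r + (q - C (eval w q)) * x, Ideal.add_mem _ (Ideal.mul_mem_left _ _ hr) ?_, ?_⟩
    · rw [sq]
      exact Ideal.mul_mem_mul (sub_C_mem w q) hx'
    · rw [smul_eq_mul, map_mul, map_mul]
      linear_combination (C (eval w q)) * e

/-- elements of `m ^ t` are combinations of the monomials of degree `t` in `a, b` modulo
`m ^ (t+1)` and `J` -/
theorem Cot.step (h : Cot J w a b) (ha : a ∈ mw w) (hb : b ∈ mw w) (t : ℕ)
    {f : MvPolynomial σ K} (hf : f ∈ (mw w) ^ t) :
    ∃ c : ℕ → K, ∃ g ∈ (mw w) ^ (t + 1), ∃ j ∈ J,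
      f = (∑ i ∈ Finset.range (t + 1), C (c i) * (a ^ i * b ^ (t - i))) + g + j := by
  induction t generalizing f with
  | zero =>
    refine ⟨fun _ => eval w f, f - C (eval w f), ?_, 0, Ideal.zero_mem _, ?_⟩
    · rw [zero_add, pow_one]
      exact sub_C_mem w f
    · simp
  | succ t ih =>
    rw [pow_succ] at hf
    refine Submodule.mul_induction_on hf ?_ ?_
    · intro p hp q hq
      obtain ⟨c, g, hg, j, hj, e⟩ := ih hp
      obtain ⟨c1, c2, j', hj', r, hr, e'⟩ := h.all hq
      -- the sum times `q`
      set u : MvPolynomial σ K := ∑ i ∈ Finset.range (t + 1), C (c i) * (a ^ i * b ^ (t - i)) with hu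
      have hum : u ∈ (mw w) ^ t := by
        refine Ideal.sum_mem _ fun i hi => Ideal.mul_mem_left _ _ ?_
        have hi' : i ≤ t := Nat.lt_succ_iff.1 (Finset.mem_range.1 hi)
        have e1 : (mw w) ^ t = (mw w) ^ i * (mw w) ^ (t - i) := by
          rw [← pow_add]
          congr 1
          omega
        rw [e1]
        exact Ideal.mul_mem_mul (Ideal.pow_mem_pow ha _) (Ideal.pow_mem_pow hb _)
      have hau : a * u = ∑ i ∈ Finset.range (t + 1), C (c i) * (a ^ (i + 1) * b ^ (t - i)) := by
        rw [hu, Finset.mul_sum]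
        refine Finset.sum_congr rfl fun i _ => ?_
        rw [pow_succ]; ring
      have hbu : b * u = ∑ i ∈ Finset.range (t + 1), C (c i) * (a ^ i * b ^ (t + 1 - i)) := by
        rw [hu, Finset.mul_sum]
        refine Finset.sum_congr rfl fun i hi => ?_
        have hi' : i ≤ t := Nat.lt_succ_iff.1 (Finset.mem_range.1 hi)
        rw [Nat.succ_sub hi', pow_succ]; ring
      refine ⟨fun i => (if i = 0 then 0 else c1 * c (i - 1)) + (if i = t + 1 then 0 else c2 * c i),
        p * r + q * g - g * r + (q * g - q * g) + (g * r - p * r + u * r),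
        ?_, j * q + u * j', Ideal.add_mem _ (Ideal.mul_mem_right _ _ hj)
          (Ideal.mul_mem_left _ _ hj'), ?_⟩
      · have e2 : p * r + q * g - g * r + (q * g - q * g) + (g * r - p * r + u * r) =
            q * g + u * r := by ring
        rw [e2]
        refine Ideal.add_mem _ ?_ ?_
        · rw [mul_comm q g, pow_succ]
          exact Ideal.mul_mem_mul hg hq
        · have e3 : t + 1 + 1 = t + 2 := rfl
          rw [e3, pow_add]
          exact Ideal.mul_mem_mul hum hr
      · have e4 : ∑ i ∈ Finset.range (t + 1 + 1),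
            C ((if i = 0 then 0 else c1 * c (i - 1)) + (if i = t + 1 then 0 else c2 * c i)) *
              (a ^ i * b ^ (t + 1 - i)) = C c1 * (a * u) + C c2 * (b * u) := by
          rw [hau, hbu]
          have e5 : ∀ i, C ((if i = 0 then (0 : K) else c1 * c (i - 1)) +
              (if i = t + 1 then 0 else c2 * c i)) * (a ^ i * b ^ (t + 1 - i)) =
              (if i = 0 then 0 else C c1 * (C (c (i - 1)) * (a ^ i * b ^ (t + 1 - i)))) +
              (if i = t + 1 then 0 else C c2 * (C (c i) * (a ^ i * b ^ (t + 1 - i)))) := by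
            intro i
            split_ifs <;> simp <;> ring
          simp only [e5, Finset.sum_add_distrib]
          congr 1
          · rw [Finset.sum_range_succ', if_pos rfl, add_zero, Finset.mul_sum]
            refine Finset.sum_congr rfl fun i _ => ?_
            rw [if_neg (Nat.succ_ne_zero i), Nat.add_sub_cancel, Nat.add_sub_add_right]
          · rw [Finset.sum_range_succ, if_pos rfl, add_zero, Finset.mul_sum]
            refine Finset.sum_congr rfl fun i hi => ?_
            have hi' : i ≠ t + 1 := by
              have := Finset.mem_range.1 hi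
              omega
            rw [if_neg hi']
        rw [e4]
        have e6 : p * q = u * q + g * q + j * q := by rw [e]; ring
        have e7 : u * q = C c1 * (a * u) + C c2 * (b * u) + u * j' + u * r := by
          rw [e']; ring
        rw [e6, e7]
        ring
    · rintro x y ⟨c, g, hg, j, hj, e⟩ ⟨c', g', hg', j', hj', e'⟩
      refine ⟨fun i => c i + c' i, g + g', Ideal.add_mem _ hg hg', j + j', Ideal.add_mem _ hj hj', ?_⟩
      rw [e, e']
      simp only [map_add, add_mul, Finset.sum_add_distrib]
      ring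

/-- the length of the neighbourhood of order `s` -/
theorem Cot.finrank_le (h : Cot J w a b) (ha : a ∈ mw w) (hb : b ∈ mw w) (s : ℕ) :
    Module.Finite K (MvPolynomial σ K ⧸ (J ⊔ (mw w) ^ s)) ∧
    Module.finrank K (MvPolynomial σ K ⧸ (J ⊔ (mw w) ^ s)) ≤ (s + 1).choose 2 := by
  classical
  let v : (Σ t : Fin s, Fin (t + 1)) → MvPolynomial σ K ⧸ (J ⊔ (mw w) ^ s) := fun p =>
    Ideal.Quotient.mk _ (a ^ (p.2 : ℕ) * b ^ ((p.1 : ℕ) - (p.2 : ℕ)))
  have key : ∀ d t : ℕ, t + d = s → ∀ f ∈ (mw w) ^ t,
      Ideal.Quotient.mk (J ⊔ (mw w) ^ s) f ∈ Submodule.span K (Set.range v) := by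
    intro d
    induction d with
    | zero =>
      intro t ht f hf
      rw [add_zero] at ht
      rw [Ideal.Quotient.eq_zero_iff_mem.2 ((le_sup_right : (mw w) ^ s ≤ J ⊔ (mw w) ^ s)
        (by rw [← ht]; exact hf))]
      exact Submodule.zero_mem _
    | succ d ih =>
      intro t ht f hf
      obtain ⟨c, g, hg, j, hj, e⟩ := h.step ha hb t hf
      rw [e, map_add, map_add, map_sum,
        Ideal.Quotient.eq_zero_iff_mem.2 ((le_sup_left : J ≤ J ⊔ (mw w) ^ s) hj), add_zero]
      refine Submodule.add_mem _ (Submodule.sum_mem _ fun i hi => ?_) (ih (t + 1) (by omega) g hg)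
      have hi' := Finset.mem_range.1 hi
      have e1 : Ideal.Quotient.mk (J ⊔ (mw w) ^ s) (C (c i) * (a ^ i * b ^ (t - i))) =
          (c i) • v ⟨⟨t, by omega⟩, ⟨i, hi'⟩⟩ := by
        rw [← MvPolynomial.smul_eq_C_mul]
        rfl
      rw [e1]
      exact Submodule.smul_mem _ _ (Submodule.subset_span ⟨_, rfl⟩)
  have htop : Submodule.span K (Set.range v) = ⊤ := by
    rw [eq_top_iff]
    rintro q -
    obtain ⟨f, rfl⟩ := Ideal.Quotient.mk_surjective q
    exact key s 0 (by omega) f (by rw [pow_zero, Ideal.one_eq_top]; trivial)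
  have hfin : Module.Finite K (MvPolynomial σ K ⧸ (J ⊔ (mw w) ^ s)) :=
    ⟨⟨Finset.univ.image v, by rw [Finset.coe_image, Finset.coe_univ, Set.image_univ, htop]⟩⟩
  refine ⟨hfin, ?_⟩
  have h1 := finrank_range_le_card (R := K) (b := v)
  rw [Set.finrank, htop, finrank_top] at h1
  refine h1.trans (le_of_eq ?_)
  rw [Fintype.card_sigma]
  simp only [Fintype.card_fin]
  rw [Fin.sum_univ_eq_sum_range (fun t => t + 1) s]
  clear h1 hfin htop key v
  induction s with
  | zero => simp
  | succ s ih =>
    rw [Finset.sum_range_succ, ih, Nat.choose_succ_succ' (s + 1) 1, Nat.choose_one_right]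
    ring

end cot

end Pool.Agent.TH522.NX
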