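import Pool.Agent.TH836.NS.Proj
import Pool.Agent.TH522.NX.Cot

/-!
# The cotangent space at a smooth point of the affine cone
-/

set_option autoImplicit false

namespace Pool.Agent.TH522.NX

open MvPolynomial Pool.Agent.W607 Pool.Agent.TH836.NS

section cc
variable {F : Type} [Field F]

theorem cc00 (g : PP F) : cc g 0 0 = MvPowerSeries.constantCoeff g := by
  unfold cc xx
  simp

theorem cc_mul10 (g h : PP F) (hg : cc g 0 0 = 0) (hh : cc h 0 0 = 0) : cc (g * h) 1 0 = 0 := by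
  rw [cc00] at hg hh
  have e : xx 1 0 = Finsupp.single (0 : Fin 2) 1 := by unfold xx; simp
  unfold cc
  rw [e, MvPowerSeries.coeff_mul, Finsupp.antidiagonal_single, Finset.sum_map]
  have e2 : Finset.HasAntidiagonal.antidiagonal (1 : ℕ) = {(0, 1), (1, 0)} := by decide
  rw [e2, Finset.sum_insert (by decide), Finset.sum_singleton]
  simp [hg, hh]

theorem cc_mul01 (g h : PP F) (hg : cc g 0 0 = 0) (hh : cc h 0 0 = 0) : cc (g * h) 0 1 = 0 := by
  rw [cc00] at hg hh
  have e : xx 0 1 = Finsupp.single (1 : Fin 2) 1 := by unfold xx; simp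
  unfold cc
  rw [e, MvPowerSeries.coeff_mul, Finsupp.antidiagonal_single, Finset.sum_map]
  have e2 : Finset.HasAntidiagonal.antidiagonal (1 : ℕ) = {(0, 1), (1, 0)} := by decide
  rw [e2, Finset.sum_insert (by decide), Finset.sum_singleton]
  simp [hg, hh]

theorem cc_add (g h : PP F) (a b : ℕ) : cc (g + h) a b = cc g a b + cc h a b := by
  unfold cc; rw [map_add]

theorem cc_zero (a b : ℕ) : cc (0 : PP F) a b = 0 := by
  unfold cc; rw [map_zero]

theorem cc_smul (c : F) (g : PP F) (a b : ℕ) : cc (c • g) a b = c * cc g a b := by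
  unfold cc; rw [map_smul, smul_eq_mul]

end cc

variable {N : ℕ}

theorem eval_w0 (x : Fin (N + 1) → PP ℂ) (f : MvPolynomial (Fin (N + 1)) ℂ) :
    cc (aeval x f) 0 0 = eval (fun i => cc (x i) 0 0) f := by
  rw [cc00]
  have : (MvPowerSeries.constantCoeff : PP ℂ →+* ℂ).comp
      ((aeval x : MvPolynomial (Fin (N + 1)) ℂ →ₐ[ℂ] PP ℂ) : _ →+* PP ℂ) =
      eval (fun i => cc (x i) 0 0) := by
    apply MvPolynomial.ringHom_ext
    · intro c
      simp only [RingHom.coe_comp, Function.comp_apply, RingHom.coe_coe, eval_C, algHom_C]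
      rw [MvPowerSeries.algebraMap_apply]
      simp
    · intro i
      simp only [RingHom.coe_comp, Function.comp_apply, RingHom.coe_coe, eval_X, aeval_X, cc00]
  exact congrFun (congrArg DFunLike.coe this) f

/-- the derivative at the point `w` in the direction `w` -/
noncomputable def dir (w : Fin (N + 1) → ℂ) (f : MvPolynomial (Fin (N + 1)) ℂ) : ℂ :=
  ∑ i, w i * eval w (pderiv i f)

theorem dir_add (w : Fin (N + 1) → ℂ) (f g : MvPolynomial (Fin (N + 1)) ℂ) :
    dir w (f + g) = dir w f + dir w g := by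
  unfold dir
  simp only [map_add, mul_add, Finset.sum_add_distrib]

theorem dir_sum {ι : Type} (w : Fin (N + 1) → ℂ) (S : Finset ι)
    (f : ι → MvPolynomial (Fin (N + 1)) ℂ) : dir w (∑ i ∈ S, f i) = ∑ i ∈ S, dir w (f i) := by
  classical
  induction S using Finset.induction_on with
  | empty => simp [dir]
  | insert i S hi ih => rw [Finset.sum_insert hi, Finset.sum_insert hi, dir_add, ih]

theorem dir_smul (w : Fin (N + 1) → ℂ) (c : ℂ) (f : MvPolynomial (Fin (N + 1)) ℂ) :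
    dir w (c • f) = c * dir w f := by
  unfold dir
  rw [Finset.mul_sum]
  refine Finset.sum_congr rfl fun i _ => ?_
  rw [Derivation.map_smul, smul_eval]
  ring

theorem dir_hom (w : Fin (N + 1) → ℂ) {f : MvPolynomial (Fin (N + 1)) ℂ} {n : ℕ}
    (h : f.IsHomogeneous n) : dir w f = n * eval w f := by
  have := congrArg (eval w) h.sum_X_mul_pderiv
  rw [map_sum] at this
  unfold dir
  simp only [map_mul, eval_X] at this
  rw [this, map_nsmul, nsmul_eq_mul]

theorem dir_sq (w : Fin (N + 1) → ℂ) {f : MvPolynomial (Fin (N + 1)) ℂ}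
    (h : f ∈ (mw w) ^ 2) : dir w f = 0 := by
  unfold dir
  refine Finset.sum_eq_zero fun i _ => ?_
  rw [pderiv_of_mem_sq h, mul_zero]

theorem dir_I (w : Fin (N + 1) → ℂ) {I : Ideal (MvPolynomial (Fin (N + 1)) ℂ)} (hIh : Hmg I)
    (h0 : ∀ f ∈ I, eval w f = 0) {f : MvPolynomial (Fin (N + 1)) ℂ} (h : f ∈ I) :
    dir w f = 0 := by
  rw [← sum_homogeneousComponent f, dir_sum]
  refine Finset.sum_eq_zero fun t _ => ?_
  rw [dir_hom w (homogeneousComponent_isHomogeneous t f), h0 _ (hIh f h t), mul_zero]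

/-- the affine cone is smooth at the point: the cotangent space is spanned by two parameters and
the equation of the chart -/
theorem cot0 (I : Ideal (MvPolynomial (Fin (N + 1)) ℂ)) (hIh : Hmg I)
    {ℓ F₀ : MvPolynomial (Fin (N + 1)) ℂ} (hℓ : ℓ.IsHomogeneous 1)
    {x : Fin (N + 1) → PP ℂ} (hx : FormalNode I ℓ F₀ x)
    (hsm : Module.finrank ℂ (MvPolynomial (Fin (N + 1)) ℂ ⧸
      (I ⊔ (mw fun i => cc (x i) 0 0) ^ 2)) = 4) :
    ∃ α β : MvPolynomial (Fin (N + 1)) ℂ, cc (aeval x α) 0 0 = 0 ∧ cc (aeval x β) 0 0 = 0 ∧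
      ∀ g ∈ mw (fun i => cc (x i) 0 0), ∃ c1 c2 c3 : ℂ, ∃ f ∈ I,
        ∃ r ∈ (mw fun i => cc (x i) 0 0) ^ 2,
        g = C c1 * α + C c2 * β + C c3 * (ℓ - 1) + f + r := by
  classical
  obtain ⟨α, β, hα, hβ, hα0, hα1, hα2, hβ0, hβ1, hβ2⟩ := hx.imm
  refine ⟨α, β, hα0, hβ0, ?_⟩
  set w0 : Fin (N + 1) → ℂ := fun i => cc (x i) 0 0 with hw0
  set J : Ideal (MvPolynomial (Fin (N + 1)) ℂ) := I ⊔ (mw w0) ^ 2 with hJ
  have hev : ∀ f, cc (aeval x f) 0 0 = eval w0 f := eval_w0 x
  have hI0 : ∀ f ∈ I, eval w0 f = 0 := by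
    intro f hf
    rw [← hev, hx.zero f hf, cc_zero]
  have hℓ0 : eval w0 ℓ = 1 := by
    rw [← hev, hx.chart, cc00, map_one]
  -- the four functionals
  have z0 : ∀ f ∈ J, eval w0 f = 0 := by
    intro f hf
    obtain ⟨a, ha, b, hb, rfl⟩ := Submodule.mem_sup.1 hf
    rw [map_add, hI0 a ha, eval_of_mem (Ideal.pow_le_self two_ne_zero hb), add_zero]
  have z12 : ∀ f ∈ J, cc (aeval x f) 1 0 = 0 ∧ cc (aeval x f) 0 1 = 0 := by
    intro f hf
    obtain ⟨a, ha, b, hb, rfl⟩ := Submodule.mem_sup.1 hf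
    rw [map_add, hx.zero a ha, zero_add]
    rw [sq] at hb
    refine Submodule.mul_induction_on hb ?_ ?_
    · intro p hp q hq
      have hp0 : cc (aeval x p) 0 0 = 0 := by rw [hev]; exact eval_of_mem hp
      have hq0 : cc (aeval x q) 0 0 = 0 := by rw [hev]; exact eval_of_mem hq
      rw [map_mul]
      exact ⟨cc_mul10 _ _ hp0 hq0, cc_mul01 _ _ hp0 hq0⟩
    · intro p q hp hq
      rw [map_add, cc_add, cc_add, hp.1, hp.2, hq.1, hq.2]
      simp
  have z3 : ∀ f ∈ J, dir w0 f = 0 := by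
    intro f hf
    obtain ⟨a, ha, b, hb, rfl⟩ := Submodule.mem_sup.1 hf
    rw [dir_add, dir_I w0 hIh hI0 ha, dir_sq w0 hb, add_zero]
  -- the four vectors
  let v : Fin 4 → MvPolynomial (Fin (N + 1)) ℂ := ![1, α, β, ℓ - 1]
  have hd1 : dir w0 (1 : MvPolynomial (Fin (N + 1)) ℂ) = 0 := by
    unfold dir
    simp
  have hdα : dir w0 α = 0 := by
    rw [dir_hom w0 hα, ← hev, hα0, mul_zero]
  have hdβ : dir w0 β = 0 := by
    rw [dir_hom w0 hβ, ← hev, hβ0, mul_zero]
  have hdℓ : dir w0 (ℓ - 1) = 1 := by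
    have h1 : ℓ - 1 = ℓ + (-1 : ℂ) • 1 := by simp [sub_eq_add_neg]
    rw [h1, dir_add, dir_smul, hd1, dir_hom w0 hℓ, hℓ0]
    simp
  have hind : LinearIndependent ℂ (fun i => Ideal.Quotient.mk J (v i)) := by
    rw [Fintype.linearIndependent_iff]
    intro c hc
    have h1 : Ideal.Quotient.mk J (∑ i, c i • v i) = 0 := by
      rw [← hc, map_sum]
      rfl
    rw [Ideal.Quotient.eq_zero_iff_mem] at h1
    have hsum : ∑ i, c i • v i = c 0 • 1 + c 1 • α + c 2 • β + c 3 • (ℓ - 1) := by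
      rw [Fin.sum_univ_four]
      rfl
    rw [hsum] at h1
    have e0 := z0 _ h1
    obtain ⟨e1, e2⟩ := z12 _ h1
    have e3 := z3 _ h1
    have hα0' : eval w0 α = 0 := by rw [← hev]; exact hα0
    have hβ0' : eval w0 β = 0 := by rw [← hev]; exact hβ0
    simp only [map_add, smul_eval, map_one, hα0', hβ0', map_sub, hℓ0, sub_self, mul_zero,
      add_zero, mul_one] at e0
    simp only [map_add, map_smul, map_one, map_sub, hx.chart, sub_self, smul_zero, add_zero,
      cc_add, cc_smul, hα1, hα2, hβ1, hβ2, mul_one, mul_zero, e0, zero_mul, zero_add] at e1 e2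
    simp only [dir_add, dir_smul, hd1, hdα, hdβ, hdℓ, mul_zero, mul_one, zero_add] at e3
    intro i
    fin_cases i
    · exact e0
    · exact e1
    · exact e2
    · exact e3
  have hfd : FiniteDimensional ℂ (MvPolynomial (Fin (N + 1)) ℂ ⧸ J) :=
    Module.finite_of_finrank_pos (by rw [hsm]; norm_num)
  have hspan := hind.span_eq_top_of_card_eq_finrank (by rw [Fintype.card_fin, hsm])
  intro g hg
  have hgm : Ideal.Quotient.mk J g ∈ Submodule.span ℂ
      (Set.range (fun i => Ideal.Quotient.mk J (v i))) := by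
    rw [hspan]
    trivial
  rw [Submodule.mem_span_range_iff_exists_fun] at hgm
  obtain ⟨c, hc⟩ := hgm
  have h1 : Ideal.Quotient.mk J (∑ i, c i • v i) = Ideal.Quotient.mk J g := by
    rw [← hc, map_sum]
    rfl
  rw [Ideal.Quotient.eq] at h1
  have hsum : ∑ i, c i • v i = c 0 • 1 + c 1 • α + c 2 • β + c 3 • (ℓ - 1) := by
    rw [Fin.sum_univ_four]
    rfl
  rw [hsum] at h1
  have hα0' : eval w0 α = 0 := by rw [← hev]; exact hα0
  have hβ0' : eval w0 β = 0 := by rw [← hev]; exact hβ0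
  have e0 := z0 _ h1
  simp only [map_add, smul_eval, map_one, hα0', hβ0', map_sub, hℓ0, sub_self, mul_zero,
      add_zero, mul_one, eval_of_mem hg, sub_zero] at e0
  obtain ⟨f, hf, r, hr, hfr⟩ := Submodule.mem_sup.1 h1
  refine ⟨c 1, c 2, c 3, -f, neg_mem hf, -r, neg_mem hr, ?_⟩
  rw [e0, zero_smul, zero_add] at hfr
  simp only [smul_eq_C_mul] at hfr
  linear_combination hfr

end Pool.Agent.TH522.NX
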