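import Pool.Agent.TH522.NX.Cot0

/-!
# The cotangent space at a point over a field of Laurent series near a smooth point of the cone
-/

set_option autoImplicit false

namespace Pool.Agent.TH522.NX

open MvPolynomial Pool.Agent.W607 Pool.Agent.TH836.NS

variable {N : ℕ}

/-- the ideal of the chart over the field `K` -/
noncomputable def JK (K : Type) [Field K] [Algebra ℂ K] (I : Ideal (MvPolynomial (Fin (N + 1)) ℂ))
    (ℓ : MvPolynomial (Fin (N + 1)) ℂ) : Ideal (MvPolynomial (Fin (N + 1)) K) :=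
  (I.map (MvPolynomial.map (algebraMap ℂ K))) ⊔
      Ideal.span {MvPolynomial.map (algebraMap ℂ K) ℓ - 1}

variable {K : Type} [Field K] [Algebra ℂ K] [Algebra (PowerSeries ℂ) K]
  [IsScalarTower ℂ (PowerSeries ℂ) K]

theorem eval_map_W (W : Fin (N + 1) → PowerSeries ℂ) (f : MvPolynomial (Fin (N + 1)) ℂ) :
    eval (fun i => algebraMap (PowerSeries ℂ) K (W i)) (MvPolynomial.map (algebraMap ℂ K) f) =
      algebraMap (PowerSeries ℂ) K (aeval W f) := by
  rw [eval_map, ← aeval_def]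
  exact aeval_algebraMap_apply K W f

theorem const_aeval (W : Fin (N + 1) → PowerSeries ℂ) (f : MvPolynomial (Fin (N + 1)) ℂ) :
    PowerSeries.constantCoeff (aeval W f) =
      eval (fun i => PowerSeries.constantCoeff (W i)) f := by
  have : (PowerSeries.constantCoeff : PowerSeries ℂ →+* ℂ).comp
      ((aeval W : MvPolynomial (Fin (N + 1)) ℂ →ₐ[ℂ] PowerSeries ℂ) : _ →+* PowerSeries ℂ) =
      eval (fun i => PowerSeries.constantCoeff (W i)) := by
    apply MvPolynomial.ringHom_ext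
    · intro c
      simp only [RingHom.coe_comp, Function.comp_apply, RingHom.coe_coe, eval_C, algHom_C]
      rw [PowerSeries.algebraMap_apply]
      simp
    · intro i
      simp only [RingHom.coe_comp, Function.comp_apply, RingHom.coe_coe, eval_X, aeval_X]
  exact congrFun (congrArg DFunLike.coe this) f

theorem cotK (hinj : Function.Injective (algebraMap (PowerSeries ℂ) K))
    (I : Ideal (MvPolynomial (Fin (N + 1)) ℂ)) (hIh : Hmg I)
    {ℓ F₀ : MvPolynomial (Fin (N + 1)) ℂ} (hℓ : ℓ.IsHomogeneous 1)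
    {x : Fin (N + 1) → PP ℂ} (hx : FormalNode I ℓ F₀ x)
    (hsm : Module.finrank ℂ (MvPolynomial (Fin (N + 1)) ℂ ⧸
      (I ⊔ (mw fun i => cc (x i) 0 0) ^ 2)) = 4)
    (W : Fin (N + 1) → PowerSeries ℂ) (hW : ∀ i, PowerSeries.constantCoeff (W i) = cc (x i) 0 0)
    (hWI : ∀ f ∈ I, aeval W f = 0) (hWℓ : aeval W ℓ = 1) :
    ∃ a b : MvPolynomial (Fin (N + 1)) K,
      a ∈ mw (fun i => algebraMap (PowerSeries ℂ) K (W i)) ∧
      b ∈ mw (fun i => algebraMap (PowerSeries ℂ) K (W i)) ∧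
      Cot (JK K I ℓ) (fun i => algebraMap (PowerSeries ℂ) K (W i)) a b := by
  classical
  obtain ⟨α, β, hα0, hβ0, hcot⟩ := cot0 I hIh hℓ hx hsm
  set w0 : Fin (N + 1) → ℂ := fun i => cc (x i) 0 0 with hw0
  set w : Fin (N + 1) → K := fun i => algebraMap (PowerSeries ℂ) K (W i) with hw
  have hWw : (fun i => PowerSeries.constantCoeff (W i)) = w0 := by
    funext i; exact hW i
  have hcot' : ∀ i, ∃ c1 c2 c3 : ℂ, ∃ f ∈ I, ∃ r ∈ (mw w0) ^ 2,
      X i - C (w0 i) = C c1 * α + C c2 * β + C c3 * (ℓ - 1) + f + r :=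
    fun i => hcot _ (Ideal.subset_span ⟨i, rfl⟩)
  choose c1 c2 c3 f hf r hr e using hcot'
  let μ : MvPolynomial (Fin (N + 1)) ℂ →+* MvPolynomial (Fin (N + 1)) K :=
    MvPolynomial.map (algebraMap ℂ K)
  let P : Fin (N + 1) → MvPolynomial (Fin (N + 1)) ℂ := fun i =>
    C (c1 i) * α + C (c2 i) * β + C (c3 i) * (ℓ - 1) + f i
  have hP : ∀ i, P i = X i - C (w0 i) - r i := by
    intro i
    rw [e i]
    ring
  let a : MvPolynomial (Fin (N + 1)) K := μ α - C (eval w (μ α))
  let b : MvPolynomial (Fin (N + 1)) K := μ β - C (eval w (μ β))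
  have hℓw : eval w (μ ℓ) = 1 := by
    show eval w (MvPolynomial.map (algebraMap ℂ K) ℓ) = 1
    rw [hw, eval_map_W, hWℓ, map_one]
  have hfw : ∀ i, eval w (μ (f i)) = 0 := by
    intro i
    show eval w (MvPolynomial.map (algebraMap ℂ K) (f i)) = 0
    rw [hw, eval_map_W, hWI _ (hf i), map_zero]
  have hh : ∀ i, μ (P i) - C (eval w (μ (P i))) =
      C (algebraMap ℂ K (c1 i)) * a + C (algebraMap ℂ K (c2 i)) * b +
        (C (algebraMap ℂ K (c3 i)) * (μ ℓ - 1) + μ (f i)) := by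
    intro i
    have h1 : μ (P i) = C (algebraMap ℂ K (c1 i)) * μ α + C (algebraMap ℂ K (c2 i)) * μ β +
        (C (algebraMap ℂ K (c3 i)) * (μ ℓ - 1) + μ (f i)) := by
      simp only [P, μ, map_add, map_mul, map_C, map_sub, map_one]
      ring
    rw [h1]
    simp only [map_add, map_mul, eval_C, map_sub, map_one, hℓw, hfw i, sub_self, mul_zero,
      add_zero, a, b]
    ring
  -- the matrix
  let MB : Matrix (Fin (N + 1)) (Fin (N + 1)) (PowerSeries ℂ) := fun i j =>
    aeval W (pderiv j (P i))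
  let M : Matrix (Fin (N + 1)) (Fin (N + 1)) K := fun i j => eval w (pderiv j (μ (P i)))
  have hM : M = (algebraMap (PowerSeries ℂ) K).mapMatrix MB := by
    ext i j
    show eval w (pderiv j (μ (P i))) = algebraMap (PowerSeries ℂ) K (aeval W (pderiv j (P i)))
    rw [← eval_map_W, ← hw]
    congr 1
    exact pderiv_map
  have hMB : (PowerSeries.constantCoeff : PowerSeries ℂ →+* ℂ).mapMatrix MB = 1 := by
    ext i j
    show PowerSeries.constantCoeff (aeval W (pderiv j (P i))) = _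
    rw [const_aeval, hWw, hP, map_sub, map_sub, map_sub, map_sub, pderiv_of_mem_sq (hr i) j,
      pderiv_X, pderiv_C, map_zero, sub_zero, sub_zero, Matrix.one_apply, Pi.single_apply]
    split_ifs with h
    · rw [map_one]
    · rw [map_zero]
  have hdetB : MB.det ≠ 0 := by
    intro h0
    have h1 := RingHom.map_det (PowerSeries.constantCoeff : PowerSeries ℂ →+* ℂ) MB
    rw [hMB, Matrix.det_one, h0, map_zero] at h1
    exact zero_ne_one h1
  have hdet : M.det ≠ 0 := by
    rw [hM, ← RingHom.map_det]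
    intro h0
    exact hdetB (hinj (by rw [h0, map_zero]))
  have hinv : M⁻¹ * M = 1 := Matrix.nonsing_inv_mul M (isUnit_iff_ne_zero.2 hdet)
  have ht : ∀ i, ∃ t ∈ (mw w) ^ 2, μ (P i) - C (eval w (μ (P i))) =
      (∑ j, C (M i j) * (X j - C (w j))) + t := by
    intro i
    refine ⟨_, taylor w (μ (P i)), ?_⟩
    simp only [M]
    ring
  choose t ht1 ht2 using ht
  refine ⟨a, b, sub_C_mem _ _, sub_C_mem _ _, fun k => ?_⟩
  have hk : X k - C (w k) = ∑ i, C (M⁻¹ k i) * (μ (P i) - C (eval w (μ (P i))) - t i) := by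
    have h1 : ∀ i, C (M⁻¹ k i) * (μ (P i) - C (eval w (μ (P i))) - t i) =
        ∑ j, C (M⁻¹ k i * M i j) * (X j - C (w j)) := by
      intro i
      rw [ht2 i, add_sub_cancel_right, Finset.mul_sum]
      refine Finset.sum_congr rfl fun j _ => ?_
      rw [map_mul]
      ring
    simp only [h1]
    rw [Finset.sum_comm]
    have h2 : ∀ j, ∑ i, C (M⁻¹ k i * M i j) * (X j - C (w j)) =
        (if j = k then X j - C (w j) else 0) := by
      intro j
      rw [← Finset.sum_mul, ← map_sum]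
      have h3 : ∑ i, M⁻¹ k i * M i j = (M⁻¹ * M) k j := rfl
      rw [h3, hinv, Matrix.one_apply]
      by_cases h : j = k
      · rw [if_pos h.symm, if_pos h, map_one, one_mul]
      · rw [if_neg (Ne.symm h), if_neg h, map_zero, zero_mul]
    simp only [h2, Finset.sum_ite_eq', Finset.mem_univ, if_true]
  refine ⟨∑ i, M⁻¹ k i * algebraMap ℂ K (c1 i), ∑ i, M⁻¹ k i * algebraMap ℂ K (c2 i),
    ∑ i, C (M⁻¹ k i) * (C (algebraMap ℂ K (c3 i)) * (μ ℓ - 1) + μ (f i)), ?_,
    -∑ i, C (M⁻¹ k i) * t i, ?_, ?_⟩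
  · refine Ideal.sum_mem _ fun i _ => Ideal.mul_mem_left _ _ (Ideal.add_mem _ ?_ ?_)
    · exact Ideal.mul_mem_left _ _ ((le_sup_right : _ ≤ JK K I ℓ) (Ideal.subset_span rfl))
    · exact (le_sup_left : _ ≤ JK K I ℓ) (Ideal.mem_map_of_mem _ (hf i))
  · exact neg_mem (Ideal.sum_mem _ fun i _ => Ideal.mul_mem_left _ _ (ht1 i))
  · rw [hk]
    simp only [hh, map_sum, map_mul, Finset.sum_mul, mul_sub, mul_add, Finset.sum_sub_distrib,
      Finset.sum_add_distrib]
    simp only [mul_assoc]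
    ring

end Pool.Agent.TH522.NX
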