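import Pool.Agent.TH836.NS.Defs
import Pool.Agent.TH176.Nag.Stair2
import Pool.Agent.TH671.NagI1

/-!
# Evaluation on the tube at points of the torus: linear independence of leading terms
-/

set_option autoImplicit false

namespace Pool.Agent.TH522.NX

open Pool.Agent.TH836.NS Pool.Agent.TH176.Nag

/-- series of scalars as series of Laurent polynomials -/
noncomputable def io : PowerSeries ℂ →+* PowerSeries (Lau ℂ) :=
  PowerSeries.map (algebraMap ℂ (Lau ℂ))

section pt
variable {z y : ℂ} (hz : z ≠ 0) (hy : y ≠ 0)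

/-- the ideal of a point of the torus -/
noncomputable def KI : Ideal (Lau ℂ) := RingHom.ker ((evL z y hz hy : Lau ℂ →ₐ[ℂ] ℂ) : Lau ℂ →+* ℂ)

/-- evaluation of the coefficients at a point of the torus -/
noncomputable def evq : PowerSeries (Lau ℂ) →+* PowerSeries ℂ :=
  PowerSeries.map ((evL z y hz hy : Lau ℂ →ₐ[ℂ] ℂ) : Lau ℂ →+* ℂ)

theorem evq_io (c : PowerSeries ℂ) : evq hz hy (io c) = c := by
  ext n
  unfold evq io
  rw [PowerSeries.coeff_map, PowerSeries.coeff_map]
  show evL z y hz hy (algebraMap ℂ (Lau ℂ) (PowerSeries.coeff n c)) = _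
  rw [AlgHom.commutes]
  rfl

/-- series all whose coefficients are in the `s`-th power of the ideal of the point -/
noncomputable def NN (s : ℕ) : Ideal (PowerSeries (Lau ℂ)) where
  carrier := {u | ∀ n, PowerSeries.coeff n u ∈ KI hz hy ^ s}
  zero_mem' n := by rw [map_zero]; exact Ideal.zero_mem _
  add_mem' {a b} ha hb n := by rw [map_add]; exact Ideal.add_mem _ (ha n) (hb n)
  smul_mem' c u hu n := by
    rw [smul_eq_mul, PowerSeries.coeff_mul]
    exact Ideal.sum_mem _ fun p _ => Ideal.mul_mem_left _ _ (hu p.2)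

theorem mem_NN {s : ℕ} {u : PowerSeries (Lau ℂ)} :
    u ∈ NN hz hy s ↔ ∀ n, PowerSeries.coeff n u ∈ KI hz hy ^ s := Iff.rfl

theorem NN_pow (s : ℕ) : (NN hz hy 1) ^ s ≤ NN hz hy s := by
  induction s with
  | zero =>
    intro u _ n
    rw [pow_zero, Ideal.one_eq_top]
    trivial
  | succ s ih =>
    rw [pow_succ, Ideal.mul_le]
    intro a ha b hb n
    rw [PowerSeries.coeff_mul, pow_succ]
    refine Ideal.sum_mem _ fun p _ => Ideal.mul_mem_mul (ih ha p.1) ?_
    have := hb p.2
    rwa [pow_one] at this

theorem NN_one_of_evq {u : PowerSeries (Lau ℂ)} (h : evq hz hy u = 0) : u ∈ NN hz hy 1 := by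
  intro n
  rw [pow_one]
  have : PowerSeries.coeff n (evq hz hy u) = 0 := by rw [h, map_zero]
  unfold evq at this
  rw [PowerSeries.coeff_map] at this
  exact this

/-- division by a nonzero series of scalars -/
theorem NN_div {s : ℕ} {u : PowerSeries (Lau ℂ)} {D : PowerSeries ℂ} (hD : D ≠ 0)
    (h : io D * u ∈ NN hz hy s) : u ∈ NN hz hy s := by
  obtain ⟨n, v, hv⟩ := IsDiscreteValuationRing.associated_pow_irreducible hD
    (PowerSeries.X_irreducible : Irreducible (PowerSeries.X : PowerSeries ℂ))
  have h1 : io (v : PowerSeries ℂ) * (io D * u) ∈ NN hz hy s := Ideal.mul_mem_left _ _ h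
  have h2 : io (v : PowerSeries ℂ) * (io D * u) = PowerSeries.X ^ n * u := by
    rw [← mul_assoc, ← map_mul, mul_comm (v : PowerSeries ℂ) D, hv, map_pow]
    congr 2
    unfold io
    rw [PowerSeries.map_X]
  rw [h2] at h1
  intro k
  have h3 := h1 (n + k)
  rwa [PowerSeries.coeff_X_pow_mul', if_pos (Nat.le_add_right n k), Nat.add_sub_cancel_left] at h3

end pt

theorem io_coeff (c : PowerSeries ℂ) (n : ℕ) :
    PowerSeries.coeff n (io c) = zY 0 (PowerSeries.coeff n c) := by
  unfold io
  rw [PowerSeries.coeff_map]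
  rfl

/-- **linear independence of the leading terms** -/
theorem tube_indep {n s : ℕ} {z y : Fin n → ℂ} (hz : ∀ q, z q ≠ 0) (hy : ∀ q, y q ≠ 0)
    {T : Finset (ℤ × ℤ)}
    (hE : ∀ f : (ℤ × ℤ) →₀ ℂ, (↑f.support : Set (ℤ × ℤ)) ⊆ ↑T →
      (∀ q, LM f (z q) (y q) s) → f = 0)
    {u : T → PowerSeries (Lau ℂ)} {ω : T → ℕ} {r : T → PowerSeries (Lau ℂ)}
    (hu : ∀ m, u m = PowerSeries.X ^ ω m * (PowerSeries.C (zY (m : ℤ × ℤ) 1) +
      PowerSeries.X * r m))
    {b : T → PowerSeries ℂ}
    (h : ∀ q, ∃ D : PowerSeries ℂ, D ≠ 0 ∧ io D * ∑ m, io (b m) * u m ∈ NN (hz q) (hy q) s) :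
    b = 0 := by
  classical
  set S : PowerSeries (Lau ℂ) := ∑ m, io (b m) * u m with hS
  have hSq : ∀ q, S ∈ NN (hz q) (hy q) s := fun q => by
    obtain ⟨D, hD, h1⟩ := h q
    exact NN_div (hz q) (hy q) hD h1
  let c : T → PowerSeries ℂ := fun m => b m * PowerSeries.X ^ ω m
  have hSc : S = ∑ m, io (c m) * (PowerSeries.C (zY (m : ℤ × ℤ) 1) + PowerSeries.X * r m) := by
    rw [hS]
    refine Finset.sum_congr rfl fun m _ => ?_
    have e : io (PowerSeries.X ^ ω m : PowerSeries ℂ) = PowerSeries.X ^ ω m := by
      unfold io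
      rw [map_pow, PowerSeries.map_X]
    show _ = io (b m * PowerSeries.X ^ ω m) * _
    rw [hu m, map_mul, e]
    ring
  have key : ∀ k : ℕ, ∀ m, PowerSeries.coeff k (c m) = 0 := by
    intro k
    induction k using Nat.strong_induction_on with
    | _ k ih =>
      have hk : PowerSeries.coeff k S = ∑ m : T, zY (m : ℤ × ℤ) (PowerSeries.coeff k (c m)) := by
        rw [hSc, map_sum]
        refine Finset.sum_congr rfl fun m _ => ?_
        rw [PowerSeries.coeff_mul, Finset.sum_eq_single (k, 0)]
        · rw [io_coeff]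
          have e0 : PowerSeries.coeff 0 (PowerSeries.C (zY (m : ℤ × ℤ) (1 : ℂ)) +
              PowerSeries.X * r m) = zY (m : ℤ × ℤ) 1 := by
            rw [map_add, PowerSeries.coeff_zero_C, PowerSeries.coeff_zero_X_mul, add_zero]
          rw [e0]
          unfold zY
          rw [AddMonoidAlgebra.single_mul_single, zero_add, mul_one]
        · rintro ⟨i, j⟩ hij hne
          rw [Finset.HasAntidiagonal.mem_antidiagonal] at hij
          simp only at hij
          have hi : i < k := by
            rcases Nat.lt_or_ge i k with h | h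
            · exact h
            · exfalso
              apply hne
              have : i = k := by omega
              have : j = 0 := by omega
              subst_vars
              rfl
          rw [io_coeff, ih i hi m]
          unfold zY
          rw [AddMonoidAlgebra.single_zero, zero_mul]
        · intro h
          exact absurd (Finset.HasAntidiagonal.mem_antidiagonal.2 (Nat.add_zero k)) h
      -- the Laurent polynomial
      let f : (ℤ × ℤ) →₀ ℂ := (PowerSeries.coeff k S).coeff
      have hfm : ∀ m : T, f (m : ℤ × ℤ) = PowerSeries.coeff k (c m) := by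
        intro m
        show (PowerSeries.coeff k S).coeff (m : ℤ × ℤ) = _
        rw [hk]
        unfold zY
        rw [AddMonoidAlgebra.coeff_sum, Finsupp.finsetSum_apply, Finset.sum_eq_single m]
        · rw [AddMonoidAlgebra.coeff_single, Finsupp.single_eq_same]
        · intro m' _ hm'
          rw [AddMonoidAlgebra.coeff_single, Finsupp.single_eq_of_ne]
          intro h
          exact hm' (Subtype.ext h.symm)
        · intro h
          exact absurd (Finset.mem_univ m) h
      have hfT : (↑f.support : Set (ℤ × ℤ)) ⊆ ↑T := by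
        intro m' hm'
        by_contra hn
        have h0 : f m' = 0 := by
          show (PowerSeries.coeff k S).coeff m' = _
          rw [hk]
          unfold zY
          rw [AddMonoidAlgebra.coeff_sum, Finsupp.finsetSum_apply]
          refine Finset.sum_eq_zero fun m _ => ?_
          rw [AddMonoidAlgebra.coeff_single, Finsupp.single_eq_of_ne]
          intro h
          exact hn (h ▸ m.2)
        exact (Finsupp.mem_support_iff.1 hm') h0
      have hf0 : f = 0 := by
        refine hE f hfT fun q => ?_
        exact Pool.Agent.TH671.NagI1.LM_of_mem_ker_pow (hz q) (hy q) (evL (z q) (y q) (hz q) (hy q))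
          (evL_mon _ _ _ _) (hSq q k)
      intro m
      rw [← hfm m, hf0]
      rfl
  funext m
  have hc0 : c m = 0 := by
    ext k
    rw [key k m, map_zero]
  exact (mul_eq_zero.1 hc0).resolve_right (pow_ne_zero _ PowerSeries.X_ne_zero)

end Pool.Agent.TH522.NX
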