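import Pool.Agent.TH522.NX.CotK
import Pool.Agent.TH522.NX.TubeE
import Pool.Agent.TH880.NB.Pt

/-!
# From leading terms on the tube to the separation of jets over a field of Laurent series
-/

set_option autoImplicit false

namespace Pool.Agent.TH522.NX

open MvPolynomial Pool.Agent.W607 Pool.Agent.TH836.NS Pool.Agent.TH176.Nag Pool.Agent.TH880.NB

/-- the points, over the complex numbers -/
theorem points {n s : ℕ} {T : Finset (ℤ × ℤ)} (h : Emp (fun _ : Fin n => s) (↑T : Set (ℤ × ℤ))) :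
    ∃ z y : Fin n → ℂ, (∀ q, z q ≠ 0) ∧ (∀ q, y q ≠ 0) ∧
      ∀ f : (ℤ × ℤ) →₀ ℂ, (↑f.support : Set (ℤ × ℤ)) ⊆ ↑T →
        (∀ q, LM f (z q) (y q) s) → f = 0 := by
  classical
  let M : ℤ := ∑ m ∈ T, (|m.1| + |m.2|)
  have hM : ∀ m ∈ T, |m.1| + |m.2| ≤ M := fun m hm =>
    Finset.single_le_sum (f := fun m : ℤ × ℤ => |m.1| + |m.2|) (fun i _ => by positivity) hm
  let φ : ℤ × ℤ → ℤ × ℤ := fun m => (m.1 + M, m.2 + M)
  have hφ : Function.Injective φ := by
    rintro ⟨p, q⟩ ⟨p', q'⟩ h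
    simp only [φ, Prod.mk.injEq] at h
    ext <;> simp <;> omega
  let S : Set (ℤ × ℤ) := φ '' ↑T
  have hS : Emp (fun _ : Fin n => s) S := by
    refine h.comap 1 0 0 1 (-M) (-M) (by norm_num) ?_
    rintro m ⟨m', hm', rfl⟩
    have e : ((1 * (φ m').1 + 0 * (φ m').2 + -M, 0 * (φ m').1 + 1 * (φ m').2 + -M) : ℤ × ℤ) =
        m' := by
      simp only [φ]
      ext <;> simp
    rw [e]
    exact hm'
  have hpos : ∀ m ∈ S, 0 ≤ m.1 ∧ 0 ≤ m.2 := by
    rintro m ⟨m', hm', rfl⟩
    have h1 := hM m' hm'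
    have h2 := neg_abs_le m'.1
    have h3 := neg_abs_le m'.2
    have h4 := abs_nonneg m'.1
    have h5 := abs_nonneg m'.2
    simp only [φ]
    constructor <;> omega
  obtain ⟨z, y, hz, hy, hE⟩ := Emp_point (T.finite_toSet.image φ) hpos hS ℂ
  refine ⟨z, y, hz, hy, fun f hf hL => ?_⟩
  have h1 : f.mapDomain φ = 0 := by
    refine hE _ ?_ fun q => ?_
    · intro m hm
      have := Finsupp.mapDomain_support hm
      simp only [Finset.mem_image] at this
      obtain ⟨m', hm', rfl⟩ := this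
      exact ⟨m', hf hm', rfl⟩
    · refine (hL q).relabel φ rfl (z q ^ M * y q ^ M) ?_ M 1 0 M 0 1 ?_ ?_
      · intro m _
        simp only [φ]
        rw [zpow_add₀ (hz q), zpow_add₀ (hy q)]
        ring
      · intro m _; simp only [φ]; push_cast; ring
      · intro m _; simp only [φ]; push_cast; ring
  exact (Finsupp.mapDomain_injective hφ) (by rw [h1, Finsupp.mapDomain_zero])

section tube
variable {N : ℕ} {p1 p2 σ : ℕ} (h1 : 1 ≤ p1) (h2 : 1 ≤ p2) (x : Fin (N + 1) → PP ℂ)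

/-- the value on the tube of a polynomial over the power series in `T` -/
noncomputable def val (σ : ℕ) : MvPolynomial (Fin (N + 1)) (PowerSeries ℂ) →+* PowerSeries (Lau ℂ) :=
  eval₂Hom io (fun i => Lam σ h1 h2 (x i))

theorem io_algebraMap (c : ℂ) :
    io (algebraMap ℂ (PowerSeries ℂ) c) = algebraMap ℂ (PowerSeries (Lau ℂ)) c := by
  rw [PowerSeries.algebraMap_apply, PowerSeries.algebraMap_apply]
  unfold io
  rw [PowerSeries.map_C]
  rfl

theorem val_map (f : MvPolynomial (Fin (N + 1)) ℂ) :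
    val h1 h2 x σ (MvPolynomial.map (algebraMap ℂ (PowerSeries ℂ)) f) =
      Lam σ h1 h2 (aeval x f) := by
  have : (val h1 h2 x σ).comp (MvPolynomial.map (algebraMap ℂ (PowerSeries ℂ))) =
      ((Lam σ h1 h2 : PP ℂ →ₐ[ℂ] PowerSeries (Lau ℂ)) : PP ℂ →+* PowerSeries (Lau ℂ)).comp
        ((aeval x : MvPolynomial (Fin (N + 1)) ℂ →ₐ[ℂ] PP ℂ) : _ →+* PP ℂ) := by
    apply MvPolynomial.ringHom_ext
    · intro c
      simp only [RingHom.coe_comp, Function.comp_apply, RingHom.coe_coe, map_C, val,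
        eval₂Hom_C, algHom_C]
      rw [io_algebraMap, AlgHom.commutes]
    · intro i
      simp only [RingHom.coe_comp, Function.comp_apply, RingHom.coe_coe, map_X, val,
        eval₂Hom_X', aeval_X]
  exact congrFun (congrArg DFunLike.coe this) f

variable {z y : ℂ} (hz : z ≠ 0) (hy : y ≠ 0)

/-- the point of the cone over the power series in `T` -/
noncomputable def WW (σ : ℕ) (i : Fin (N + 1)) : PowerSeries ℂ := evq hz hy (Lam σ h1 h2 (x i))

theorem evq_algebraMap (c : ℂ) :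
    evq hz hy (algebraMap ℂ (PowerSeries (Lau ℂ)) c) = algebraMap ℂ (PowerSeries ℂ) c := by
  rw [← io_algebraMap, evq_io]

theorem aeval_WW (f : MvPolynomial (Fin (N + 1)) ℂ) :
    aeval (WW h1 h2 x hz hy σ) f = evq hz hy (Lam σ h1 h2 (aeval x f)) := by
  have : ((aeval (WW h1 h2 x hz hy σ) : MvPolynomial (Fin (N + 1)) ℂ →ₐ[ℂ] PowerSeries ℂ) :
        _ →+* PowerSeries ℂ) =
      ((evq hz hy).comp
      ((Lam σ h1 h2 : PP ℂ →ₐ[ℂ] PowerSeries (Lau ℂ)) : PP ℂ →+* PowerSeries (Lau ℂ))).comp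
        ((aeval x : MvPolynomial (Fin (N + 1)) ℂ →ₐ[ℂ] PP ℂ) :
          MvPolynomial (Fin (N + 1)) ℂ →+* PP ℂ) := by
    apply MvPolynomial.ringHom_ext
    · intro c
      simp only [RingHom.coe_comp, Function.comp_apply, RingHom.coe_coe, algHom_C]
      rw [AlgHom.commutes, evq_algebraMap]
    · intro i
      simp only [RingHom.coe_comp, Function.comp_apply, RingHom.coe_coe, aeval_X, WW]
  exact congrFun (congrArg DFunLike.coe this) f

include h1 h2 in
theorem tb_const (i : Fin 2) : MvPowerSeries.constantCoeff (tb ℂ p1 p2 σ i) = 0 := by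
  have hX : ∀ p : ℕ, 1 ≤ p → PowerSeries.constantCoeff (R := Lau ℂ) (PowerSeries.X ^ p) = 0 := by
    intro p hp
    rw [map_pow, PowerSeries.constantCoeff_X, zero_pow (by omega)]
  fin_cases i
  · show PowerSeries.constantCoeff (R := Lau ℂ)
      (PowerSeries.X ^ p1 * PowerSeries.C (zY (1, 0) 1)) = 0
    rw [map_mul, hX p1 h1, zero_mul]
  · show PowerSeries.constantCoeff (R := Lau ℂ)
      (PowerSeries.X ^ p2 * PowerSeries.C (zY (-1, 0) 1) *
      (1 + PowerSeries.X ^ σ * PowerSeries.C (zY (0, 1) 1))) = 0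
    rw [map_mul, map_mul, hX p2 h2, zero_mul, zero_mul]

theorem const_Lam (g : PP ℂ) : PowerSeries.constantCoeff (Lam σ h1 h2 g) =
    algebraMap ℂ (Lau ℂ) (cc g 0 0) := by
  have e : g = (g - algebraMap ℂ (PP ℂ) (cc g 0 0)) + algebraMap ℂ (PP ℂ) (cc g 0 0) := by ring
  have h0 : MvPowerSeries.constantCoeff (g - algebraMap ℂ (PP ℂ) (cc g 0 0)) = 0 := by
    rw [map_sub, MvPowerSeries.algebraMap_apply, cc00]
    simp
  have h3 : PowerSeries.constantCoeff (Lam σ h1 h2 (g - algebraMap ℂ (PP ℂ) (cc g 0 0))) = 0 := by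
    unfold Lam
    rw [MvPowerSeries.substAlgHom_apply]
    exact MvPowerSeries.constantCoeff_subst_eq_zero (hasSubst_tb h1 h2)
      (fun i => tb_const h1 h2 i) h0
  conv_lhs => rw [e]
  rw [map_add, map_add, h3, zero_add, AlgHom.commutes, PowerSeries.algebraMap_apply]
  simp

theorem const_WW (i : Fin (N + 1)) :
    PowerSeries.constantCoeff (WW h1 h2 x hz hy σ i) = cc (x i) 0 0 := by
  unfold WW evq
  rw [← PowerSeries.coeff_zero_eq_constantCoeff_apply, PowerSeries.coeff_map,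
    PowerSeries.coeff_zero_eq_constantCoeff_apply, const_Lam]
  show evL z y hz hy (algebraMap ℂ (Lau ℂ) (cc (x i) 0 0)) = _
  rw [AlgHom.commutes]
  rfl

/-- the ideal of the jets over the power series in `T` is mapped into the ideal of the point -/
theorem val_mem {I : Ideal (MvPolynomial (Fin (N + 1)) ℂ)} {ℓ : MvPolynomial (Fin (N + 1)) ℂ}
    (hI : ∀ f ∈ I, aeval x f = 0) (hℓ : aeval x ℓ = 1) {s : ℕ}
    {f : MvPolynomial (Fin (N + 1)) (PowerSeries ℂ)}
    (hf : f ∈ (I.map (MvPolynomial.map (algebraMap ℂ (PowerSeries ℂ)))) ⊔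
      Ideal.span {MvPolynomial.map (algebraMap ℂ (PowerSeries ℂ)) ℓ - 1} ⊔
      (mw (WW h1 h2 x hz hy σ)) ^ s) : val h1 h2 x σ f ∈ NN hz hy s := by
  have hle : (I.map (MvPolynomial.map (algebraMap ℂ (PowerSeries ℂ)))) ⊔
      Ideal.span {MvPolynomial.map (algebraMap ℂ (PowerSeries ℂ)) ℓ - 1} ⊔
      (mw (WW h1 h2 x hz hy σ)) ^ s ≤ (NN hz hy s).comap (val h1 h2 x σ) := by
    refine sup_le (sup_le ?_ ?_) ?_
    · rw [Ideal.map_le_iff_le_comap]
      intro g hg
      rw [Ideal.mem_comap, Ideal.mem_comap, val_map, hI g hg, map_zero]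
      exact Ideal.zero_mem _
    · rw [Ideal.span_le, Set.singleton_subset_iff, SetLike.mem_coe, Ideal.mem_comap, map_sub,
        val_map, hℓ, map_one, map_one, sub_self]
      exact Ideal.zero_mem _
    · rw [← Ideal.map_le_iff_le_comap, Ideal.map_pow]
      refine le_trans (Ideal.pow_right_mono ?_ s) (NN_pow hz hy s)
      rw [Ideal.map_le_iff_le_comap]
      unfold mw
      rw [Ideal.span_le]
      rintro _ ⟨i, rfl⟩
      rw [SetLike.mem_coe, Ideal.mem_comap]
      apply NN_one_of_evq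
      simp only [map_sub, val, eval₂Hom_X', eval₂Hom_C]
      rw [evq_io]
      unfold WW
      rw [sub_self]
  exact hle hf

end tube

end Pool.Agent.TH522.NX
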