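import Pool.Agent.TH522.NX.SepK

/-!
# From leading terms on the tube to the separation of jets over a field of Laurent series
-/

set_option autoImplicit false

namespace Pool.Agent.TH522.NX

open MvPolynomial Pool.Agent.W607 Pool.Agent.TH836.NS Pool.Agent.TH176.Nag Pool.Agent.TH880.NB

variable {N : ℕ}

/-- clearing denominators in the ideal of the jets -/
theorem clear_den {K : Type} [Field K] [Algebra ℂ K] [Algebra (PowerSeries ℂ) K]
    [IsScalarTower ℂ (PowerSeries ℂ) K] [IsFractionRing (PowerSeries ℂ) K]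
    (I : Ideal (MvPolynomial (Fin (N + 1)) ℂ)) (ℓ : MvPolynomial (Fin (N + 1)) ℂ) {s : ℕ}
    (W : Fin (N + 1) → PowerSeries ℂ) {f : MvPolynomial (Fin (N + 1)) (PowerSeries ℂ)}
    (hf : MvPolynomial.map (algebraMap (PowerSeries ℂ) K) f ∈
      JK K I ℓ ⊔ (mw (fun i => algebraMap (PowerSeries ℂ) K (W i))) ^ s) :
    ∃ D : PowerSeries ℂ, D ≠ 0 ∧ C D * f ∈
      (I.map (MvPolynomial.map (algebraMap ℂ (PowerSeries ℂ)))) ⊔
      Ideal.span {MvPolynomial.map (algebraMap ℂ (PowerSeries ℂ)) ℓ - 1} ⊔ (mw W) ^ s := by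
  set JB : Ideal (MvPolynomial (Fin (N + 1)) (PowerSeries ℂ)) :=
    (I.map (MvPolynomial.map (algebraMap ℂ (PowerSeries ℂ)))) ⊔
      Ideal.span {MvPolynomial.map (algebraMap ℂ (PowerSeries ℂ)) ℓ - 1} ⊔ (mw W) ^ s with hJB
  let μ : MvPolynomial (Fin (N + 1)) (PowerSeries ℂ) →+* MvPolynomial (Fin (N + 1)) K :=
    MvPolynomial.map (algebraMap (PowerSeries ℂ) K)
  have hμ : ∀ g : MvPolynomial (Fin (N + 1)) ℂ, MvPolynomial.map (algebraMap ℂ K) g =
      μ (MvPolynomial.map (algebraMap ℂ (PowerSeries ℂ)) g) := by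
    intro g
    show _ = MvPolynomial.map (algebraMap (PowerSeries ℂ) K)
      (MvPolynomial.map (algebraMap ℂ (PowerSeries ℂ)) g)
    rw [MvPolynomial.map_map, ← IsScalarTower.algebraMap_eq]
  have hle : JK K I ℓ ⊔ (mw (fun i => algebraMap (PowerSeries ℂ) K (W i))) ^ s ≤
      JB.map μ := by
    refine sup_le (sup_le ?_ ?_) ?_
    · rw [Ideal.map_le_iff_le_comap]
      intro g hg
      rw [Ideal.mem_comap, hμ]
      exact Ideal.mem_map_of_mem _ ((le_trans le_sup_left le_sup_left :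
        I.map (MvPolynomial.map (algebraMap ℂ (PowerSeries ℂ))) ≤ JB) (Ideal.mem_map_of_mem _ hg))
    · rw [Ideal.span_le, Set.singleton_subset_iff, SetLike.mem_coe, hμ, ← map_one μ, ← map_sub]
      exact Ideal.mem_map_of_mem _ ((le_trans le_sup_right le_sup_left :
        Ideal.span {MvPolynomial.map (algebraMap ℂ (PowerSeries ℂ)) ℓ - 1} ≤ JB)
        (Ideal.subset_span rfl))
    · refine le_trans ?_ (Ideal.map_mono (le_sup_right : (mw W) ^ s ≤ JB))
      rw [Ideal.map_pow]
      refine Ideal.pow_right_mono ?_ s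
      unfold mw
      rw [Ideal.span_le]
      rintro _ ⟨i, rfl⟩
      rw [SetLike.mem_coe]
      have e : (X i - C (algebraMap (PowerSeries ℂ) K (W i)) : MvPolynomial (Fin (N + 1)) K) =
          μ (X i - C (W i)) := by
        simp [μ]
      show (X i - C (algebraMap (PowerSeries ℂ) K (W i)) : MvPolynomial (Fin (N + 1)) K) ∈ _
      rw [e]
      exact Ideal.mem_map_of_mem _ (Ideal.subset_span ⟨i, rfl⟩)
  let _ := MvPolynomial.algebraMvPolynomial (R := PowerSeries ℂ) (S := K) (σ := Fin (N + 1))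
  have : IsLocalization ((nonZeroDivisors (PowerSeries ℂ)).map (C (σ := Fin (N + 1))))
      (MvPolynomial (Fin (N + 1)) K) := MvPolynomial.isLocalization _ K
  have hfm : algebraMap (MvPolynomial (Fin (N + 1)) (PowerSeries ℂ))
      (MvPolynomial (Fin (N + 1)) K) f ∈ JB.map (algebraMap
        (MvPolynomial (Fin (N + 1)) (PowerSeries ℂ)) (MvPolynomial (Fin (N + 1)) K)) := hle hf
  rw [IsLocalization.mem_map_algebraMap_iff
    ((nonZeroDivisors (PowerSeries ℂ)).map (C (σ := Fin (N + 1))))] at hfm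
  obtain ⟨⟨e, D⟩, he⟩ := hfm
  obtain ⟨D0, hD0, hD⟩ := Submonoid.mem_map.1 D.2
  refine ⟨D0, nonZeroDivisors.ne_zero hD0, ?_⟩
  have hinj : Function.Injective μ := MvPolynomial.map_injective _
    (IsFractionRing.injective (PowerSeries ℂ) K)
  have h3 : μ (C D0 * f) = μ (e : MvPolynomial (Fin (N + 1)) (PowerSeries ℂ)) := by
    have h4 : μ f * μ (D : MvPolynomial (Fin (N + 1)) (PowerSeries ℂ)) =
      μ (e : MvPolynomial (Fin (N + 1)) (PowerSeries ℂ)) := he
    rw [← h4, map_mul, mul_comm]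
    congr 2
  rw [hinj h3]
  exact e.2

/-- **from leading terms to the separation of jets over an extension field** -/
theorem sepK_of_LC (I : Ideal (MvPolynomial (Fin (N + 1)) ℂ)) (hIh : Hmg I)
    {ℓ F₀ : MvPolynomial (Fin (N + 1)) ℂ} (hℓ : ℓ.IsHomogeneous 1)
    {x : Fin (N + 1) → PP ℂ} (hx : FormalNode I ℓ F₀ x)
    (hsm : Module.finrank ℂ (MvPolynomial (Fin (N + 1)) ℂ ⧸
      (I ⊔ (mw fun i => cc (x i) 0 0) ^ 2)) = 4)
    {k : ℕ} {δ : ℝ} (V : Nodal ℂ k δ) (hV : ∀ d, V.V d =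
      (homogeneousSubmodule (Fin (N + 1)) ℂ d).map (aeval x : _ →ₐ[ℂ] PP ℂ).toLinearMap)
    {n E s : ℕ} (h : LC V n E s) :
    ∃ (K : Type) (_ : Field K) (_ : Algebra ℂ K) (w : Fin n → Fin (N + 1) → K),
      (∀ q, aeval (w q) ℓ = 1) ∧ (∀ q, ∀ f ∈ I, aeval (w q) f = 0) ∧ SepK K I ℓ E s w := by
  classical
  obtain ⟨p1, p2, σ, h1, h2, T, -, hcard, hEmp, hT⟩ := h
  obtain ⟨z, y, hz, hy, hE⟩ := points hEmp
  -- the forms over the power series
  have hF : ∀ m : T, ∃ F : MvPolynomial (Fin (N + 1)) (PowerSeries ℂ), F.IsHomogeneous E ∧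
      ∃ (ω : ℕ) (r : PowerSeries (Lau ℂ)), val h1 h2 x σ F =
        PowerSeries.X ^ ω * (PowerSeries.C (zY (m : ℤ × ℤ) 1) + PowerSeries.X * r) := by
    rintro ⟨m, hm⟩
    obtain ⟨g, hg, ω, r, hgr⟩ := hT m hm
    have hG : ∀ c, ∃ G : MvPolynomial (Fin (N + 1)) ℂ, G.IsHomogeneous E ∧ aeval x G = g.coeff c := by
      intro c
      have := hg c
      rw [hV] at this
      obtain ⟨G, hG1, hG2⟩ := this
      exact ⟨G, (mem_homogeneousSubmodule E G).1 hG1, hG2⟩
    choose G hG1 hG2 using hG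
    refine ⟨∑ c ∈ g.support, C (PowerSeries.X ^ ((p1 + p2) * c)) *
      MvPolynomial.map (algebraMap ℂ (PowerSeries ℂ)) (G c), ?_, ω, r, ?_⟩
    · refine IsHomogeneous.sum _ _ _ fun c _ => ?_
      have := (isHomogeneous_C (Fin (N + 1)) (PowerSeries.X ^ ((p1 + p2) * c) :
        PowerSeries ℂ)).mul ((hG1 c).map (algebraMap ℂ (PowerSeries ℂ)))
      rwa [zero_add] at this
    · rw [← hgr, map_sum]
      unfold Val
      rw [Polynomial.eval₂_eq_sum, Polynomial.sum_def]
      refine Finset.sum_congr rfl fun c _ => ?_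
      rw [map_mul, val_map, hG2, ← pow_mul]
      have e : val h1 h2 x σ (C (PowerSeries.X ^ ((p1 + p2) * c))) =
          PowerSeries.X ^ ((p1 + p2) * c) := by
        unfold val
        rw [eval₂Hom_C]
        unfold io
        rw [map_pow, PowerSeries.map_X]
      rw [e, mul_comm]
      rfl
  choose F hFh ω r hFr using hF
  let K : Type := FractionRing (PowerSeries ℂ)
  let W : Fin n → Fin (N + 1) → PowerSeries ℂ := fun q => WW h1 h2 x (hz q) (hy q) σ
  let w : Fin n → Fin (N + 1) → K := fun q i => algebraMap (PowerSeries ℂ) K (W q i)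
  have hWI : ∀ q, ∀ f ∈ I, aeval (W q) f = 0 := by
    intro q f hf
    show aeval (WW h1 h2 x (hz q) (hy q) σ) f = 0
    rw [aeval_WW, hx.zero f hf, map_zero, map_zero]
  have hWℓ : ∀ q, aeval (W q) ℓ = 1 := by
    intro q
    show aeval (WW h1 h2 x (hz q) (hy q) σ) ℓ = 1
    rw [aeval_WW, hx.chart, map_one, map_one]
  have hw : ∀ q (f : MvPolynomial (Fin (N + 1)) ℂ), aeval (w q) f =
      algebraMap (PowerSeries ℂ) K (aeval (W q) f) := by
    intro q f
    exact aeval_algebraMap_apply K (W q) f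
  have hinj : Function.Injective (algebraMap (PowerSeries ℂ) K) := IsFractionRing.injective _ _
  refine ⟨K, inferInstance, inferInstance, w, fun q => by rw [hw, hWℓ, map_one],
    fun q f hf => by rw [hw, hWI q f hf, map_zero], ?_⟩
  -- the lengths
  have hlen : ∀ q, Module.Finite K (MvPolynomial (Fin (N + 1)) K ⧸
        (JK K I ℓ ⊔ (mw (w q)) ^ s)) ∧
      Module.finrank K (MvPolynomial (Fin (N + 1)) K ⧸ (JK K I ℓ ⊔ (mw (w q)) ^ s)) ≤
        (s + 1).choose 2 := by
    intro q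
    obtain ⟨a, b, ha, hb, hcot⟩ := cotK (K := K) hinj I hIh hℓ hx hsm (W q)
      (fun i => const_WW h1 h2 x (hz q) (hy q) i) (hWI q) (hWℓ q)
    exact hcot.finrank_le ha hb s
  have := fun q => (hlen q).1
  let Fk : T → MvPolynomial (Fin (N + 1)) K := fun m =>
    MvPolynomial.map (algebraMap (PowerSeries ℂ) K) (F m)
  let Φ : (T → K) →ₗ[K] (∀ q, MvPolynomial (Fin (N + 1)) K ⧸ (JK K I ℓ ⊔ (mw (w q)) ^ s)) :=
    LinearMap.pi fun q => (Ideal.Quotient.mkₐ K (JK K I ℓ ⊔ (mw (w q)) ^ s)).toLinearMap ∘ₗ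
      Fintype.linearCombination K Fk
  have hΦ : ∀ c q, Φ c q = Ideal.Quotient.mk (JK K I ℓ ⊔ (mw (w q)) ^ s) (∑ m, c m • Fk m) := by
    intro c q
    rfl
  have hΦinj : Function.Injective Φ := by
    rw [← LinearMap.ker_eq_bot, LinearMap.ker_eq_bot']
    intro c hc
    have hc' : ∀ q, ∑ m, c m • Fk m ∈ JK K I ℓ ⊔ (mw (w q)) ^ s := by
      intro q
      rw [← Ideal.Quotient.eq_zero_iff_mem, ← hΦ, hc]
      rfl
    obtain ⟨d, hd⟩ := IsLocalization.exist_integer_multiples_of_finite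
      (nonZeroDivisors (PowerSeries ℂ)) c
    choose b hb using hd
    have hb' : ∀ m, algebraMap (PowerSeries ℂ) K (b m) =
        algebraMap (PowerSeries ℂ) K (d : PowerSeries ℂ) * c m := by
      intro m
      rw [hb m, Algebra.smul_def]
    have hsum : MvPolynomial.map (algebraMap (PowerSeries ℂ) K) (∑ m, C (b m) * F m) =
        C (algebraMap (PowerSeries ℂ) K (d : PowerSeries ℂ)) * ∑ m, c m • Fk m := by
      rw [map_sum, Finset.mul_sum]
      refine Finset.sum_congr rfl fun m _ => ?_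
      rw [map_mul, map_C, hb' m, map_mul, smul_eq_C_mul, mul_assoc]
    have hb0 : b = 0 := by
      refine tube_indep hz hy hE hFr fun q => ?_
      have hm : MvPolynomial.map (algebraMap (PowerSeries ℂ) K) (∑ m, C (b m) * F m) ∈
          JK K I ℓ ⊔ (mw (fun i => algebraMap (PowerSeries ℂ) K (W q i))) ^ s := by
        rw [hsum]
        exact Ideal.mul_mem_left _ _ (hc' q)
      obtain ⟨D, hD, hDm⟩ := clear_den I ℓ (W q) hm
      refine ⟨D, hD, ?_⟩
      have h3 := val_mem h1 h2 x (hz q) (hy q) (fun f hf => hx.zero f hf) hx.chart hDm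
      have h4 : val h1 h2 x σ (C D * ∑ m, C (b m) * F m) =
          io D * ∑ m, io (b m) * val h1 h2 x σ (F m) := by
        rw [map_mul, map_sum]
        simp only [map_mul]
        have h5 : ∀ c : PowerSeries ℂ, val h1 h2 x σ (C c) = io c := by
          intro c
          unfold val
          rw [eval₂Hom_C]
        simp only [h5]
      rw [h4] at h3
      exact h3
    funext m
    have h5 := hb' m
    rw [hb0, Pi.zero_apply, map_zero] at h5
    have h6 : algebraMap (PowerSeries ℂ) K (d : PowerSeries ℂ) ≠ 0 := by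
      rw [Ne, map_eq_zero_iff _ hinj]
      exact nonZeroDivisors.ne_zero d.2
    exact (mul_eq_zero.1 h5.symm).resolve_left h6
  have hdim : Module.finrank K (T → K) = Module.finrank K
      (∀ q, MvPolynomial (Fin (N + 1)) K ⧸ (JK K I ℓ ⊔ (mw (w q)) ^ s)) := by
    apply le_antisymm (LinearMap.finrank_le_finrank_of_injective hΦinj)
    rw [Module.finrank_pi_fintype, Module.finrank_fintype_fun_eq_card, Fintype.card_coe, hcard]
    refine (Finset.sum_le_sum fun q _ => (hlen q).2).trans (le_of_eq ?_)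
    rw [Finset.sum_const, Finset.card_univ, Fintype.card_fin, smul_eq_mul]
  have hsurj : Function.Surjective Φ :=
    (LinearMap.injective_iff_surjective_of_finrank_eq_finrank hdim).1 hΦinj
  intro q f
  obtain ⟨c, hc⟩ := hsurj (Function.update 0 q (Ideal.Quotient.mk _ f))
  refine ⟨∑ m, c m • Fk m, ?_, ?_, ?_⟩
  · refine IsHomogeneous.sum _ _ _ fun m _ => ?_
    rw [smul_eq_C_mul]
    have := (isHomogeneous_C (Fin (N + 1)) (c m)).mul
      ((hFh m).map (algebraMap (PowerSeries ℂ) K))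
    rwa [zero_add] at this
  · have h3 := congrFun hc q
    rw [hΦ, Function.update_self, Ideal.Quotient.eq] at h3
    exact h3
  · intro q' hq'
    have h3 := congrFun hc q'
    rw [hΦ, Function.update_of_ne hq', Pi.zero_apply, Ideal.Quotient.eq_zero_iff_mem] at h3
    exact h3

end Pool.Agent.TH522.NX
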